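import Pool.Agent.E8helper11.GS.Stm

/-! # Project GS, piece PROD -/

set_option autoImplicit false

open Filter Topology

namespace Pool.Agent.E8helper67.GS

open Pool.Agent.E8helper11.GS

theorem t_PROD : S_PROD := by
  intro u hu hs
  have h0 : ∀ i, 0 < 1 / (u i : ℝ) ∧ 1 / (u i : ℝ) ≤ 1 / 2 := by
    intro i
    have h2 : (2 : ℝ) ≤ u i := by exact_mod_cast hu i
    exact ⟨by positivity, one_div_le_one_div_of_le (by norm_num) h2⟩
  have hpos : ∀ i, 0 < 1 - 1 / (u i : ℝ) := fun i => by linarith [(h0 i).2]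
  have hlog : Summable fun i => Real.log (1 - 1 / (u i : ℝ)) := by
    have h1 : Summable fun i => -(1 / (u i : ℝ)) := hs.neg
    have h2 := Real.summable_log_one_add_of_summable h1
    refine h2.congr fun i => ?_
    rw [← sub_eq_add_neg]
  have hexp := Real.rexp_tsum_eq_tprod hpos hlog
  have hmul : Multipliable fun i => (1 - 1 / (u i : ℝ)) :=
    Real.multipliable_of_summable_log hpos hlog
  refine ⟨by rw [← hexp]; exact Real.exp_pos _, fun s => ?_⟩
  have hanti : Antitone fun s : ℕ => ∏ i ∈ Finset.range s, (1 - 1 / (u i : ℝ)) := by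
    refine antitone_nat_of_succ_le fun s => ?_
    rw [Finset.prod_range_succ]
    have h1 : 0 < ∏ i ∈ Finset.range s, (1 - 1 / (u i : ℝ)) := Finset.prod_pos fun i _ => hpos i
    have h2 : 1 - 1 / (u s : ℝ) ≤ 1 := by linarith [(h0 s).1]
    exact mul_le_of_le_one_right h1.le h2
  exact hanti.le_of_tendsto hmul.hasProd.tendsto_prod_nat s

end Pool.Agent.E8helper67.GS
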